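import Pool.Agent.R911.Ck.Main

/-!
# Chow–Künneth decompositions and finite-dimensional algebras of correspondences

`X` is a smooth projective variety over a field with a Weil cohomology theory `W`. Correspondences
are taken modulo rational equivalence with rational coefficients.

* `X` has a Chow–Künneth decomposition if and only if there is one correspondence `f` of degree zero
  which satisfies a nonzero polynomial with rational coefficients modulo rational equivalence, and
  whose operators on the groups `H^0(X), …, H^{2 dim X}(X)` are annihilated by pairwise coprime
  polynomials with rational coefficients.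
* For such an algebraic `f`, the spectra are separated if and only if there is a Chow–Künneth
  decomposition whose projectors are polynomials in `f`.
* A finite-dimensional subalgebra `B` of the ring of correspondences of degree zero contains the
  projectors of a Chow–Künneth decomposition if and only if for all `i ≠ j` it contains an element
  which acts as the identity on `H^i(X)` and as zero on `H^j(X)`.
-/

open Pool.Agent.H914 Pool.Agent.H914.VarClass Pool.Agent.H914.VarClass.Obj Pool.Agent.R903
open Pool.Agent.R911.Ck Polynomial

universe u v w

namespace Pool.Agent.Results.MP_638e8a_ag.AlgebraicCorrespondences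

theorem result {k : Type u} [Field k] {𝒱 : VarClass k} {C : ChowTheory.{u, v} 𝒱}
    (W : WeilTheory.{u, v, w} C) (X : 𝒱.Obj) :
    (W.HasCK X ↔ ∃ f ∈ C.gr (X.prod X) X.dim, IsAlgebraicCorr C X f ∧ HasSeparatedSpectra W X f) ∧
    (∀ f ∈ C.gr (X.prod X) X.dim, IsAlgebraicCorr C X f →
      (HasSeparatedSpectra W X f ↔
        ∃ π, W.IsCK X π ∧ ∀ j, ∃ p : ℚ[X], π j = polyCorr C X p f)) ∧
    (∀ B : Set (C.CH (X.prod X)), IsCorrAlgebra C X B →
      (SeparatesDegrees W X B ↔ ∃ π, W.IsCK X π ∧ ∀ j, π j ∈ B)) :=
  main W X

end Pool.Agent.Results.MP_638e8a_ag.AlgebraicCorrespondences
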