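import Pool.Agent.R368.Equi.Main

/-!
# Chow–Künneth decompositions compatible with group actions and with given decompositions

Let `𝒱` be a class of smooth projective varieties over a field `k` which is closed under products,
with Chow groups `C` (rational coefficients) and a Weil cohomology theory `W`, `X` in `𝒱`, and
`n = dim X`. A correspondence in `CH^n(X × X)` is *algebraic* if it is a zero of a nonzero polynomial
with rational coefficients.

1. For each set `B` of correspondences `X` has a Chow–Künneth decomposition whose members commute with
   `B` if and only if some algebraic correspondence which commutes with `B` separates the degrees.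
2. Suppose the standard conjecture of Künneth type holds for `X`, and `B` is averageable. If each
   homologically trivial correspondence in `CH^n(X × X)` which commutes with `B` is algebraic then `X`
   has a Chow–Künneth decomposition whose members commute with `B`.
3. A finite group of correspondences (for example of automorphisms of `X`) is averageable.
4. If `h(X) = M_1 ⊕ … ⊕ M_r` is any decomposition of the Chow motive of `X` then the set of its
   projectors is averageable.
5. Suppose the standard conjecture of Künneth type holds for `X`, and all homologically trivial
   correspondences in `CH^n(X × X)` are algebraic (for example, `CH^n(X × X)` has finite dimension).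
   Then each variety `Y` whose motive is a direct summand of a Tate twist of `h(X)` (for example, which
   is dominated by `X`) has a self-dual Chow–Künneth decomposition.
-/

open Pool.Agent.H914 Pool.Agent.R903 Pool.Agent.R368

universe u v w

namespace Pool.Agent.Results.MP_638e8a_ag.CompatibleDecompositions

theorem result {k : Type u} [Field k] {𝒱 : VarClass k} {C : ChowTheory.{u, v} 𝒱}
    (W : WeilTheory.{u, v, w} C) (X : 𝒱.Obj) :
    (∀ B : Set (C.CH (X.prod X)),
      HasCKCommuting W X B ↔ ∃ g, Separates W X g ∧ Algebraic C g ∧ CommutesWith C B g) ∧
    (∀ B : Set (C.CH (X.prod X)), KunnethFor W X → Averageable C X B → CommutantAlgebraic W X B →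
      HasCKCommuting W X B) ∧
    (∀ (G : Type) [Group G] [Fintype G] (ρ : G → C.CH (X.prod X)), IsAction C ρ →
      Averageable C X (Set.range ρ)) ∧
    (∀ (r : ℕ) (e : Fin r → C.CH (X.prod X)), IsDecomp C e → Averageable C X (Set.range e)) ∧
    (KunnethFor W X → HomTrivAlgebraic W X → ∀ Y, C.IsSummand Y X → HasSelfDualCK W Y) :=
  ⟨hasCKCommuting_iff, fun _ hK hB hA => hasCKCommuting_of_averageable hK hB hA,
    fun _ _ _ _ h => averageable_of_isAction h, fun _ _ h => averageable_of_isDecomp h,
    fun hK hA _ hY => hasSelfDualCK_of_isSummand hK hA hY⟩

end Pool.Agent.Results.MP_638e8a_ag.CompatibleDecompositions
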