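import Pool.Agent.R903.LefSec

/-!
# A motivic Lefschetz hyperplane theorem

Let `X` be a smooth projective variety of dimension `n` over a field, and let `D` be a divisor class
on `X` such that multiplication by `D` on the cohomology of `X` has the hard Lefschetz property, and
such that `Δ_* D` is divisible by `(p_2^* D - p_1^* D)^2` in the Chow ring of `X × X`, with quotient
in `CH^(n-1)(X × X)`. (Equivalently, the multiplication by `D` on the Chow motive of `X` is part of
an `sl₂`-triple whose semisimple element is `∑ (j - n) π_j` for orthogonal idempotents `π_j`.)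

Let `i : Y → X` be a morphism from a smooth projective variety `Y` of dimension `n - c` such that
`i_* 1` is a nonzero rational multiple of `D^c` in `CH^c(X)` and `i^* : H^j(X) → H^j(Y)` is surjective
for `j < dim Y`. For example, `D` is ample and `i` is the inclusion of a smooth complete intersection
of `c` ample divisors whose classes are multiples of `D`.

Then `X` and `Y` have Chow–Künneth decompositions for which `i^* : h^j(X) → h^j(Y)` is an isomorphism
for `j < dim Y` and a split injection for `j = dim Y`, and `i_* : h^j(Y) → h^(j + 2c)(X)(c)` is an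
isomorphism for `j > dim Y`.
-/

open Pool.Agent.H914 Pool.Agent.H914.VarClass Pool.Agent.H914.VarClass.Obj Pool.Agent.R903

universe u v w

namespace Pool.Agent.Results.MP_638e8a_ag.CompleteIntersections

theorem result {k : Type u} [Field k] {𝒱 : VarClass k} {C : ChowTheory.{u, v} 𝒱}
    (W : WeilTheory.{u, v, w} C) {X Y : 𝒱.Obj} {D : C.CH X} (hD : D ∈ C.gr X 1)
    (hdiv : C.Divisible D) (hL : W.HardLefschetz (C.lef D)) {c : ℕ} {i : Y ⟶ X}
    (hi : C.IsSection D c i) (hw : W.WeakLefschetz i) :
    ∃ (π : ℕ → C.CH (X.prod X)) (ρ : ℕ → C.CH (Y.prod Y)), W.LefschetzPair c i π ρ :=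
  WeilTheory.exists_pair_of_divisible hD hdiv hL hi hw

end Pool.Agent.Results.MP_638e8a_ag.CompleteIntersections
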