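import Pool.Agent.R903.Lef

/-!
# A single equation which yields a Chow–Künneth decomposition

Let `X` be a smooth projective variety of dimension `n` over a field. Correspondences from `X` to
`X` are composed as usual, and `[α, β] = α ∘ β - β ∘ α`.

Let `L` be a correspondence in `CH^(n+1)(X × X)`, for example `Δ_* D` for a divisor class `D`. The
following are equivalent.

* The equation `[L, [L, Λ]] = -2 L`, which is linear in `Λ`, has a solution `Λ` in
  `CH^(n-1)(X × X)`.
* There are mutually orthogonal idempotents `π 0, …, π 2n` in `CH^n(X × X)` with sum the diagonal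
  and a `Λ` in `CH^(n-1)(X × X)` such that `(L, ∑ (j - n) π j, Λ)` is an `sl₂`-triple.

In this case the `π j` form a Chow–Künneth decomposition of `X`, for each Weil cohomology theory for
which the action of `L` on the cohomology of `X` has the hard Lefschetz property.

For `L = Δ_* D` the equation reads: `Δ_* D` is divisible by `(p_2^* D - p_1^* D)^2` in the Chow ring
of `X × X`, with quotient in `CH^(n-1)(X × X)`.
-/

open Pool.Agent.H914 Pool.Agent.H914.VarClass Pool.Agent.H914.VarClass.Obj Pool.Agent.R903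

universe u v w

namespace Pool.Agent.Results.MP_638e8a_ag.LefschetzCriterion

theorem result {k : Type u} [Field k] {𝒱 : VarClass k} (C : ChowTheory.{u, v} 𝒱) (X : 𝒱.Obj) :
    (∀ L ∈ C.gr (X.prod X) (X.dim + 1),
      (C.Solvable L ↔ C.HasLefschetzSystem L) ∧
      ∀ W : WeilTheory.{u, v, w} C, W.HardLefschetz L → W.SystemsAreCK L) ∧
    ∀ D ∈ C.gr X 1, (C.Divisible D ↔ C.HasLefschetzSystem (C.lef D)) := by
  have h1 : ∀ L ∈ C.gr (X.prod X) (X.dim + 1), (C.Solvable L ↔ C.HasLefschetzSystem L) :=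
    fun L hL => ⟨fun ⟨_, hΛ, h⟩ => ChowTheory.exists_system hL hΛ h,
      fun ⟨Λ, _, h⟩ => ⟨Λ, h.mem_Λ, h.bracket_bracket⟩⟩
  refine ⟨fun L hL => ⟨h1 L hL, fun W hW Λ π h => h.isCK hL W hW⟩, fun D hD => ?_⟩
  have hL : C.lef D ∈ C.gr (X.prod X) (X.dim + 1) :=
    C.push_mem _ hD (by rw [dim_prod]; omega)
  rw [← h1 _ hL]
  constructor
  · rintro ⟨Λ, hΛ, h⟩
    refine ⟨(-2 : ℚ) • Λ, Submodule.smul_mem _ _ hΛ, ?_⟩
    rw [ChowTheory.lef] at h ⊢
    rw [ChowTheory.bracket_push_diag, ChowTheory.bracket_push_diag, mul_smul_comm, mul_smul_comm]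
    rw [ChowTheory.diff] at h
    rw [h, neg_smul]
  · rintro ⟨Λ, hΛ, h⟩
    refine ⟨(-(2 : ℚ)⁻¹) • Λ, Submodule.smul_mem _ _ hΛ, ?_⟩
    rw [ChowTheory.lef] at h ⊢
    rw [ChowTheory.bracket_push_diag, ChowTheory.bracket_push_diag] at h
    rw [ChowTheory.diff, mul_smul_comm, mul_smul_comm, h, neg_smul, smul_neg, neg_neg, smul_smul]
    norm_num

end Pool.Agent.Results.MP_638e8a_ag.LefschetzCriterion
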